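import Mathlib
import Pool.Agent.L0h79.FR.UL

set_option autoImplicit false
set_option linter.all false

/-!
# Project AJ: algebraic independence in multiplicatively independent bases, without exceptions
The modules, as propositions.
-/

namespace Pool.Agent.L0h79.AJ

open Filter Topology Pool.Agent.TH932.Abs Pool.Agent.TH932.Germs Pool.Agent.TH932.Chi
open Pool.Agent.TH796.AL Pool.Agent.TH796.AL.TwoB Pool.Agent.L0h79.FR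

/-- CRAM (Mathlib only): Cramer's rule with bounds. For a matrix `M` over a domain with entries in the
first step of a filtration there are `Δ ≠ 0` and solutions `n c` of the system, all in the step
`card κ`, such that `Δ q` is a combination of the solutions for each vector `q`, up to a combination
of the entries of `M q`. -/
def S_CRAM : Prop := ∀ (R : Type) [CommRing R] [IsDomain R] (ι κ : Type) [Fintype ι] [Fintype κ]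
  (M : Matrix ι κ R) (Fil : ℕ → AddSubgroup R) (_ : Monotone Fil) (_ : (1 : R) ∈ Fil 0)
  (_ : ∀ i j, ∀ a ∈ Fil i, ∀ b ∈ Fil j, a * b ∈ Fil (i + j)) (_ : ∀ i k, M i k ∈ Fil 1),
  ∃ (Δ : R) (n : κ → κ → R) (a : ι → κ → R), Δ ≠ 0 ∧ Δ ∈ Fil (Fintype.card κ) ∧
    (∀ c k, n c k ∈ Fil (Fintype.card κ)) ∧ (∀ i k, a i k ∈ Fil (Fintype.card κ)) ∧
    (∀ c, M.mulVec (n c) = 0) ∧
    ∀ (q : κ → R) (k : κ), Δ * q k = ∑ c, q c * n c k + ∑ i, (M.mulVec q) i * a i k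

/-- PROJ: a projection onto `W` which kills `V`, with a bound for the valuations. -/
def S_PROJ : Prop := ∀ (m : ℕ) (B : Base m) (V W : Submodule ℝ (Fin m → ℝ)), Disjoint V W →
  ∃ (π : (Fin m → ℝ) →ₗ[ℝ] (Fin m → ℝ)) (κ : ℝ), 1 ≤ κ ∧ (∀ v ∈ V, π v = 0) ∧
    (∀ w ∈ W, π w = w) ∧ (∀ x, π x ∈ W) ∧
    ∀ (c : ℝ) (x : Fin m → ℝ), (∀ u, |lv B u x| ≤ c) → ∀ u, |lv B u (π x)| ≤ κ * c

/-- BSYS (algebra of the group ring): if the sums `A_l = ∑ P Q H` have only characters with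
`lv none g ≥ x₀`, where the characters of `P` are in `V`, those of `Q` in `W` and those of `H` are
bounded by `c`, then there are bounded `n c'` (solutions in place of `Q`), for which the sums have
only characters with `lv none g ≥ x₁ - O(c)`, and `Δ ≠ 0` such that `Δ Q` is a combination of them,
up to characters with `lv none g ≥ x₀ - x₁ - O(c)`. -/
def S_BSYS : Prop := ∀ (m : ℕ) (B : Base m) (V W : Submodule ℝ (Fin m → ℝ)) (_ : Disjoint V W),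
  ∃ κ : ℝ, 1 ≤ κ ∧ ∀ (K : Type) [Field K] (I Za Zb J : Type) [Fintype I] [Fintype Za] [Fintype Zb]
  [Fintype J] (P : I → Za → AddMonoidAlgebra K (Fin m → ℝ)) (_ : ∀ i a g, (P i a).coeff g ≠ 0 → g ∈ V)
  (Q : I → Zb → AddMonoidAlgebra K (Fin m → ℝ)) (_ : ∀ i b g, (Q i b).coeff g ≠ 0 → g ∈ W)
  (H : Za → Zb → J → AddMonoidAlgebra K (Fin m → ℝ)) (c : ℝ) (_ : 0 ≤ c)
  (_ : ∀ a b l g, (H a b l).coeff g ≠ 0 → ∀ u, |lv B u g| ≤ c) (x₀ x₁ : ℝ)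
  (_ : ∀ l g, (∑ i, ∑ a, ∑ b, P i a * Q i b * H a b l).coeff g ≠ 0 → x₀ ≤ lv B none g),
  ∃ (Δ : AddMonoidAlgebra K (Fin m → ℝ)) (n : I × Zb → I → Zb → AddMonoidAlgebra K (Fin m → ℝ)),
    Δ ≠ 0 ∧
    (∀ g, Δ.coeff g ≠ 0 → ∀ u, |lv B u g| ≤ κ * c * Fintype.card (I × Zb)) ∧
    (∀ c' i b g, (n c' i b).coeff g ≠ 0 → ∀ u, |lv B u g| ≤ κ * c * Fintype.card (I × Zb)) ∧
    (∀ c' l g, (∑ i, ∑ a, ∑ b, P i a * n c' i b * H a b l).coeff g ≠ 0 →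
      x₁ - κ * c * (Fintype.card (I × Zb) + 1) ≤ lv B none g) ∧
    ∀ i b g, (Δ * Q i b - ∑ c' : I × Zb, Q c'.1 c'.2 * n c' i b).coeff g ≠ 0 →
      x₀ - x₁ - κ * c * Fintype.card (I × Zb) ≤ lv B none g

/-- GBIL (germs): a small bilinear expression `∑ s_i t_i` yields bounded germs `T_i`, not all zero, such
that `∑ s_i T_i` is small. -/
def S_GBIL : Prop := ∀ (m : ℕ) (B : Base m) (V W : Submodule ℝ (Fin m → ℝ)) (_ : Disjoint V W) (k : ℕ),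
  ∃ κ : ℝ, 0 ≤ κ ∧ ∀ (C : ℝ) (_ : 0 ≤ C) (L : ℕ → ℝ) (hL : Tendsto L atTop atTop)
  (Za Zb : Type) (_ : Fintype Za) (_ : Fintype Zb) (z : Za → GG) (w : Zb → GG)
  (_ : ∀ v a, z a ∈ Sv B L v (-C)) (_ : ∀ a, z a ∈ SS L (RS B) (-C))
  (_ : ∀ v b, w b ∈ Sv B L v (-C)) (_ : ∀ b, w b ∈ SS L (RS B) (-C))
  (P : Fin k → Za → Rg m hL) (_ : ∀ i a g, (P i a).coeff g ≠ 0 → g ∈ V)
  (Q : Fin k → Zb → Rg m hL) (_ : ∀ i b g, (Q i b).coeff g ≠ 0 → g ∈ W) (E : ℝ)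
  (_ : rho (∑ i, (∑ a, ev B hL (P i a) * z a) * (∑ b, ev B hL (Q i b) * w b)) ∈ SR L E)
  (i₀ : Fin k) (_ : rho (∑ b, ev B hL (Q i₀ b) * w b) ∉ SR L 1)
  (_ : κ * (C + 1) * ((Fintype.card Za : ℝ) + Fintype.card Zb + 1) ^ 5 ≤ E),
  ∃ T : Fin k → GG, (∃ i, T i ≠ 0) ∧
    (∀ i v, T i ∈ Sv B L v (-(κ * (C + 1) * ((Fintype.card Za : ℝ) + Fintype.card Zb + 1) ^ 5))) ∧
    (∀ i, T i ∈ SS L (RS B) (-(κ * (C + 1) * ((Fintype.card Za : ℝ) + Fintype.card Zb + 1) ^ 5))) ∧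
    rho (∑ i, (∑ a, ev B hL (P i a) * z a) * T i) ∈
      SR L (E / 2 - κ * (C + 1) * ((Fintype.card Za : ℝ) + Fintype.card Zb + 1) ^ 5)

/-- BIL: the same for real numbers; integer vectors. -/
def S_BIL : Prop := ∀ (m : ℕ) (B : Base m) (V W : Submodule ℝ (Fin m → ℝ)) (_ : Disjoint V W) (k : ℕ),
  ∃ κ : ℝ, 0 ≤ κ ∧ ∀ (C : ℝ) (_ : 0 ≤ C) (r : ℕ) (L : ℕ → ℝ) (hL : Tendsto L atTop atTop)
  (x y : Fin k → ℝ) (E : ℝ) (_ : ∀ i, Dat B hL V C r E (x i)) (_ : ∀ i, Dat B hL W C r E (y i))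
  (_ : ∑ i, x i * y i = 0) (_ : ∃ i, y i ≠ 0) (_ : κ * (C + 1) * ((r : ℝ) + 1) ^ 5 ≤ E),
  ∃ τ : ℕ → Fin k → ℤ, ∀ᶠ n in (UU : Filter ℕ), τ n ≠ 0 ∧
    (∀ i, |(τ n i : ℝ)| ≤ Real.exp (κ * (C + 1) * ((r : ℝ) + 1) ^ 5 * L n)) ∧
    |∑ i, (τ n i : ℝ) * x i| ≤ Real.exp (-((E / 2 - κ * (C + 1) * ((r : ℝ) + 1) ^ 5) * L n))

/-- PCOP (Mathlib only): two coprime integer polynomials are not both small at `z`. -/
def S_PCOP : Prop := ∀ (d : ℕ) (z : ℝ), ∃ c : ℝ, 0 < c ∧ ∀ (F G : Polynomial ℤ) (X : ℝ), 1 ≤ X →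
  F.natDegree ≤ d → G.natDegree ≤ d → (∀ i, |(F.coeff i : ℝ)| ≤ X) → (∀ i, |(G.coeff i : ℝ)| ≤ X) →
  IsCoprime (F.map (Int.castRingHom ℚ)) (G.map (Int.castRingHom ℚ)) →
  c * (X ^ (2 * d))⁻¹ ≤ max |Polynomial.aeval z F| |Polynomial.aeval z G|

/-- PFAC (Mathlib only): an integer polynomial which is small at `z` has an irreducible factor
which is small at `z`. -/
def S_PFAC : Prop := ∀ (d : ℕ), 1 ≤ d → ∃ c : ℝ, 1 ≤ c ∧ ∀ (F : Polynomial ℤ) (z X Y : ℝ), 1 ≤ X →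
  0 < Y → Y < 1 → F ≠ 0 → F.natDegree ≤ d → (∀ i, |(F.coeff i : ℝ)| ≤ X) →
  |Polynomial.aeval z F| ≤ Y ^ d →
  ∃ G : Polynomial ℤ, Irreducible G ∧ G.IsPrimitive ∧ 1 ≤ G.natDegree ∧ G.natDegree ≤ d ∧
    (∀ i, |(G.coeff i : ℝ)| ≤ c * X) ∧ |Polynomial.aeval z G| ≤ Y

/-- PGLUE: polynomials which are small at `z` at all scales. -/
def S_PGLUE : Prop := ∀ (d : ℕ), ∃ K : ℝ, 0 ≤ K ∧ ∀ (z H : ℝ), 0 ≤ H →
  (∀ N : ℕ → ℕ, (∀ n, 2 ≤ N n) → Tendsto N atTop atTop → ∃ F : ℕ → Polynomial ℤ,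
    ∀ᶠ n in (UU : Filter ℕ), F n ≠ 0 ∧ (F n).natDegree ≤ d ∧
      (∀ i, |((F n).coeff i : ℝ)| ≤ Real.exp (H * N n)) ∧
      |Polynomial.aeval z (F n)| ≤ Real.exp (-(K * (H + 1) * N n))) →
  ∃ F : Polynomial ℤ, F ≠ 0 ∧ F.natDegree ≤ d ∧ Polynomial.aeval z F = 0

/-- the numbers which are represented in the bases `b l` jointly, with a number of germs of order
`(log E)^d` -/
def ULM {k : ℕ} (b : Fin k → ℕ) (x : ℝ) : Prop :=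
  ∀ (m : ℕ) (B : Base m) (e : Fin k → Fin m → ℕ), (∀ l, b l = ∏ i, B.P i ^ e l i) →
  ∃ (C A : ℝ) (d : ℕ), 0 ≤ C ∧ 0 ≤ A ∧
    ∀ E : ℕ, ∃ r : ℕ, (r : ℝ) ≤ A * (1 + Real.log (E + 1)) ^ d ∧
      ∀ (N : ℕ → ℕ) (_ : ∀ n, 2 ≤ N n) (hL : Tendsto (fun n => (N n : ℝ)) atTop atTop),
        Dat B hL (Submodule.span ℝ (Set.range fun l => fun i => (e l i : ℝ))) C r E x

/-- ULM: they form an algebra which contains the classes `UL (b l)`. -/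
def S_ULM : Prop := ∀ (k : ℕ) (b : Fin k → ℕ),
  (∀ q : ℚ, ULM b (q : ℝ)) ∧ (∀ x y, ULM b x → ULM b y → ULM b (x + y)) ∧
  (∀ x y, ULM b x → ULM b y → ULM b (x * y)) ∧ ∀ l x, UL (b l) x → ULM b x

/-- `b₀` and the `b l` are multiplicatively independent (in the form which is needed: no power of `b₀`
is a product of powers of the `b l`) -/
def MInd {k : ℕ} (b₀ : ℕ) (b : Fin k → ℕ) : Prop :=
  ∀ (s : ℤ) (t : Fin k → ℤ), (b₀ : ℚ) ^ s * ∏ l, (b l : ℚ) ^ t l = 1 → s = 0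

/-- DISJ: the corresponding subspaces. -/
def S_DISJ : Prop := ∀ (k m : ℕ) (B : Base m) (b₀ : ℕ) (b : Fin k → ℕ) (e₀ : Fin m → ℕ)
  (e : Fin k → Fin m → ℕ) (_ : b₀ = ∏ i, B.P i ^ e₀ i) (_ : ∀ l, b l = ∏ i, B.P i ^ e l i)
  (_ : MInd b₀ b),
  Disjoint (Submodule.span ℝ {fun i => (e₀ i : ℝ)})
    (Submodule.span ℝ (Set.range fun l => fun i => (e l i : ℝ)))

/-- STEP: an element of the field generated by `UL b₀` which is algebraic over the algebra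
`ULM b` is algebraic. -/
def S_STEP : Prop := ∀ (k : ℕ) (b₀ : ℕ) (b : Fin k → ℕ), 2 ≤ b₀ → (∀ l, 2 ≤ b l) → MInd b₀ b →
  ∀ (d : ℕ) (p q : ℝ) (_ : UL b₀ p) (_ : UL b₀ q) (_ : q ≠ 0) (y : Fin (d + 1) → ℝ)
    (_ : ∀ i, ULM b (y i)) (_ : ∃ i, y i ≠ 0) (_ : ∑ i : Fin (d + 1), (p / q) ^ (i : ℕ) * y i = 0),
  ∃ F : Polynomial ℤ, F ≠ 0 ∧ F.natDegree ≤ d ∧ Polynomial.aeval (p / q) F = 0

end Pool.Agent.L0h79.AJ
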