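import Mathlib
import Pool.Agent.L0h79.AJ.Stm

set_option autoImplicit false
set_option linter.all false

/-!
# AJ: the class `ULM`
-/

namespace Pool.Agent.L0h79.AJ

open Filter Topology Pool.Agent.TH932.Abs Pool.Agent.TH932.Germs Pool.Agent.TH932.Chi
open Pool.Agent.TH932.Words Pool.Agent.TH796.AL Pool.Agent.L0h79.FR

/-- monotonicity in the subspace -/
theorem dat_monoV {m : ℕ} {B : Base m} {L : ℕ → ℝ} {V V' : Submodule ℝ (Fin m → ℝ)}
    (hL : Tendsto L atTop atTop) {C : ℝ} {r : ℕ} {E x : ℝ}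
    (hV : V ≤ V') (h : Dat B hL V C r E x) : Dat B hL V' C r E x := by
  obtain ⟨Z, i, z, hc, h1, h2, P, s, h3, h4, h5⟩ := h
  exact ⟨Z, i, z, hc, h1, h2, P, s, fun j g hg => hV (h3 j g hg), h4, h5⟩

variable {k : ℕ} {b : Fin k → ℕ}

theorem ulm_const (q : ℚ) : ULM b (q : ℝ) := by
  intro m B e hbe
  exact ⟨0, 1, 0, le_rfl, zero_le_one, fun E => ⟨1, by simp, fun N _ hL => dat_const B hL _ q E⟩⟩

theorem ulm_add {x y : ℝ} (hx : ULM b x) (hy : ULM b y) : ULM b (x + y) := by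
  intro m B e hbe
  obtain ⟨C1, A1, d1, hC1, hA1, h1⟩ := hx m B e hbe
  obtain ⟨C2, A2, d2, hC2, hA2, h2⟩ := hy m B e hbe
  refine ⟨max C1 C2, 2 ^ d1 * A1 + 2 ^ d2 * A2, d1 + d2, le_max_of_le_left hC1, by positivity,
    fun E => ?_⟩
  obtain ⟨r1, hr1, g1⟩ := h1 (E + 1)
  obtain ⟨r2, hr2, g2⟩ := h2 (E + 1)
  refine ⟨r1 + r2, ?_, fun N hN hL => ?_⟩
  · have hl := log_succ E
    have h0 := one_le_log E
    have h0' := one_le_log (E + 1)
    set X := 1 + Real.log ((E : ℝ) + 1) with hX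
    set Y := 1 + Real.log (((E + 1 : ℕ) : ℝ) + 1) with hY
    have a1 : Y ^ d1 ≤ 2 ^ d1 * X ^ (d1 + d2) := by
      calc Y ^ d1 ≤ (2 * X) ^ d1 := by gcongr
        _ = 2 ^ d1 * X ^ d1 := by rw [mul_pow]
        _ ≤ 2 ^ d1 * X ^ (d1 + d2) := by
          gcongr
          omega
    have a2 : Y ^ d2 ≤ 2 ^ d2 * X ^ (d1 + d2) := by
      calc Y ^ d2 ≤ (2 * X) ^ d2 := by gcongr
        _ = 2 ^ d2 * X ^ d2 := by rw [mul_pow]
        _ ≤ 2 ^ d2 * X ^ (d1 + d2) := by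
          gcongr
          omega
    push_cast
    calc (r1 : ℝ) + r2 ≤ A1 * Y ^ d1 + A2 * Y ^ d2 := add_le_add hr1 hr2
      _ ≤ A1 * (2 ^ d1 * X ^ (d1 + d2)) + A2 * (2 ^ d2 * X ^ (d1 + d2)) := by gcongr
      _ = _ := by ring
  · have e1 := g1 N hN hL
    have e2 := g2 N hN hL
    push_cast at e1 e2
    exact dat_add hL _ e1 e2

theorem ulm_mul {x y : ℝ} (hx : ULM b x) (hy : ULM b y) : ULM b (x * y) := by
  intro m B e hbe
  obtain ⟨C1, A1, d1, hC1, hA1, h1⟩ := hx m B e hbe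
  obtain ⟨C2, A2, d2, hC2, hA2, h2⟩ := hy m B e hbe
  refine ⟨C1 + C2, (2 ^ d1 * A1) * (2 ^ d2 * A2), d1 + d2, by positivity, by positivity,
    fun E => ?_⟩
  obtain ⟨r1, hr1, g1⟩ := h1 (E + 1)
  obtain ⟨r2, hr2, g2⟩ := h2 (E + 1)
  refine ⟨r1 * r2, ?_, fun N hN hL => ?_⟩
  · have hl := log_succ E
    have h0 := one_le_log E
    have h0' := one_le_log (E + 1)
    set X := 1 + Real.log ((E : ℝ) + 1) with hX
    set Y := 1 + Real.log (((E + 1 : ℕ) : ℝ) + 1) with hY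
    push_cast
    calc (r1 : ℝ) * r2 ≤ (A1 * Y ^ d1) * (A2 * Y ^ d2) := by gcongr
      _ ≤ (A1 * (2 * X) ^ d1) * (A2 * (2 * X) ^ d2) := by gcongr
      _ = _ := by rw [mul_pow, mul_pow, pow_add]; ring
  · have e1 := g1 N hN hL
    have e2 := g2 N hN hL
    push_cast at e1 e2
    refine dat_mul hL _ ?_ ?_
    · rwa [abs_of_nonneg (Nat.cast_nonneg E)]
    · rwa [abs_of_nonneg (Nat.cast_nonneg E)]

theorem ulm_of_ul {l : Fin k} {x : ℝ} (h : UL (b l) x) : ULM b x := by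
  intro m B e hbe
  obtain ⟨C, A, d, hC, hA, h1⟩ := h m B (e l) (hbe l)
  refine ⟨C, A, d, hC, hA, fun E => ?_⟩
  obtain ⟨r, hr, g⟩ := h1 E
  refine ⟨r, hr, fun N hN hL => dat_monoV hL ?_ (g N hN hL)⟩
  refine Submodule.span_mono ?_
  rintro _ rfl
  exact ⟨l, rfl⟩

theorem ulm : S_ULM := fun k b =>
  ⟨fun q => ulm_const q, fun x y hx hy => ulm_add hx hy, fun x y hx hy => ulm_mul hx hy,
    fun l x hx => ulm_of_ul hx⟩

/-- the algebra -/
theorem ulm_adjoin {S : Set ℝ} (hS : ∀ x ∈ S, ULM b x) {y : ℝ}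
    (hy : y ∈ Algebra.adjoin ℚ S) : ULM b y := by
  induction hy using Algebra.adjoin_induction with
  | mem x hx => exact hS x hx
  | algebraMap q => exact ulm_const q
  | add x y _ _ hx hy => exact ulm_add hx hy
  | mul x y _ _ hx hy => exact ulm_mul hx hy

theorem ul_pow {b : ℕ} {x : ℝ} (hx : UL b x) (n : ℕ) : UL b (x ^ n) := by
  induction n with
  | zero => simpa using ul_const b 1
  | succ n ih => rw [pow_succ]; exact ul_mul ih hx

end Pool.Agent.L0h79.AJ
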