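import Mathlib
import Pool.Agent.L0h79.AJ.Ulm
import Pool.Agent.L0h79.FR.Fin

set_option autoImplicit false
set_option linter.all false

/-!
# AJ: the final theorems from STEP
-/

namespace Pool.Agent.L0h79.AJ

open Filter Topology Pool.Agent.TH932.Germs
open Pool.Agent.TH932.Words Pool.Agent.TH796.AL Pool.Agent.L0h79.FR

/-- elements of the field generated by a class in `UL b` -/
theorem closure_frac {b : ℕ} {S : Set ℝ} (hS : ∀ x ∈ S, UL b x) {x : ℝ}
    (hx : x ∈ Subfield.closure S) : ∃ p q : ℝ, UL b p ∧ UL b q ∧ q ≠ 0 ∧ x = p / q := by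
  have hsub : ∀ y ∈ Subring.closure S, UL b y := by
    intro y hy
    induction hy using Subring.closure_induction with
    | mem x hx => exact hS x hx
    | zero => simpa using ul_const b 0
    | one => simpa using ul_const b 1
    | add x y _ _ hx hy => exact ul_add hx hy
    | neg x _ hx =>
      have := ul_mul (ul_const b (-1)) hx
      simpa using this
    | mul x y _ _ hx hy => exact ul_mul hx hy
  rw [Subfield.mem_closure_iff] at hx
  obtain ⟨p, hp, q, hq, rfl⟩ := hx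
  by_cases h : q = 0
  · refine ⟨0, 1, by simpa using ul_const b 0, by simpa using ul_const b 1, one_ne_zero, ?_⟩
    rw [h]
    simp
  · exact ⟨p, q, hsub p hp, hsub q hq, h, rfl⟩

/-- elements of the algebra generated by fractions -/
theorem adjoin_frac {k : ℕ} {b : Fin k → ℕ} {x : Fin k → ℝ}
    (hx : ∀ l, ∃ p q : ℝ, UL (b l) p ∧ UL (b l) q ∧ q ≠ 0 ∧ x l = p / q) {c : ℝ}
    (hc : c ∈ Algebra.adjoin ℚ (Set.range x)) :
    ∃ u v : ℝ, ULM b u ∧ ULM b v ∧ v ≠ 0 ∧ c = u / v := by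
  induction hc using Algebra.adjoin_induction with
  | mem c hc =>
    obtain ⟨l, rfl⟩ := hc
    obtain ⟨p, q, hp, hq, hq0, h⟩ := hx l
    exact ⟨p, q, ulm_of_ul hp, ulm_of_ul hq, hq0, h⟩
  | algebraMap q => exact ⟨q, 1, ulm_const q, by simpa using ulm_const (b := b) 1, one_ne_zero, by simp⟩
  | add x y _ _ hx hy =>
    obtain ⟨u, v, h1, h2, h3, rfl⟩ := hx
    obtain ⟨u', v', h1', h2', h3', rfl⟩ := hy
    exact ⟨u * v' + v * u', v * v', ulm_add (ulm_mul h1 h2') (ulm_mul h2 h1'), ulm_mul h2 h2',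
      mul_ne_zero h3 h3', div_add_div _ _ h3 h3'⟩
  | mul x y _ _ hx hy =>
    obtain ⟨u, v, h1, h2, h3, rfl⟩ := hx
    obtain ⟨u', v', h1', h2', h3', rfl⟩ := hy
    exact ⟨u * u', v * v', ulm_mul h1 h1', ulm_mul h2 h2', mul_ne_zero h3 h3', div_mul_div_comm _ _ _ _⟩

theorem ulm_prod {k : ℕ} {b : Fin k → ℕ} {ι : Type} (s : Finset ι) (f : ι → ℝ)
    (h : ∀ i ∈ s, ULM b (f i)) : ULM b (∏ i ∈ s, f i) := by
  classical
  induction s using Finset.induction_on with
  | empty => simpa using ulm_const (b := b) 1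
  | insert i s hi ih =>
    rw [Finset.prod_insert hi]
    exact ulm_mul (h i (Finset.mem_insert_self _ _)) (ih fun j hj => h j (Finset.mem_insert_of_mem hj))

/-- an algebraic relation over the other bases -/
theorem ai_poly (hst : S_STEP) {k : ℕ} {b₀ : ℕ} {b : Fin k → ℕ} (hb₀ : 2 ≤ b₀) (hb : ∀ l, 2 ≤ b l)
    (hM : MInd b₀ b) {x₀ : ℝ} (hx₀ : ∃ p q : ℝ, UL b₀ p ∧ UL b₀ q ∧ q ≠ 0 ∧ x₀ = p / q)
    (P : Polynomial ℝ) (hP : P ≠ 0)
    (hfr : ∀ i, ∃ u v : ℝ, ULM b u ∧ ULM b v ∧ v ≠ 0 ∧ P.coeff i = u / v)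
    (hP0 : P.eval x₀ = 0) : IsAlgebraic ℚ x₀ := by
  classical
  obtain ⟨p, q, hp, hq, hq0, hpq⟩ := hx₀
  choose u' v' hu' hv' hv0' huv' using hfr
  set u : Fin (P.natDegree + 1) → ℝ := fun i => u' i with hu1
  set v : Fin (P.natDegree + 1) → ℝ := fun i => v' i with hv1
  have hu : ∀ i, ULM b (u i) := fun i => hu' i
  have hv : ∀ i, ULM b (v i) := fun i => hv' i
  have hv0 : ∀ i, v i ≠ 0 := fun i => hv0' i
  have huv : ∀ i : Fin (P.natDegree + 1), P.coeff i = u i / v i := fun i => huv' i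
  set y : Fin (P.natDegree + 1) → ℝ := fun i => u i * ∏ j ∈ Finset.univ.erase i, v j with hy
  have hyu : ∀ i, ULM b (y i) := fun i => ulm_mul (hu i) (ulm_prod _ _ fun j _ => hv j)
  have hye : ∀ i : Fin (P.natDegree + 1), y i = (∏ j, v j) * P.coeff i := by
    intro i
    rw [huv i, ← Finset.mul_prod_erase Finset.univ v (Finset.mem_univ i)]
    rw [hy]
    simp only []
    field_simp [hv0 i]
  have hV : ∏ j, v j ≠ 0 := Finset.prod_ne_zero_iff.2 fun j _ => hv0 j
  have hne : ∃ i, y i ≠ 0 := by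
    refine ⟨Fin.last _, ?_⟩
    rw [hye]
    refine mul_ne_zero hV ?_
    intro h0
    have h1 : P.coeff P.natDegree = 0 := h0
    exact hP (Polynomial.leadingCoeff_eq_zero.1 h1)
  have hsum : ∑ i : Fin (P.natDegree + 1), (p / q) ^ (i : ℕ) * y i = 0 := by
    have e1 : ∀ i : Fin (P.natDegree + 1), (p / q) ^ (i : ℕ) * y i = (∏ j, v j) *
        (P.coeff i * x₀ ^ (i : ℕ)) := by
      intro i
      rw [hye i, hpq]
      ring
    simp only [e1]
    rw [← Finset.mul_sum]
    have e2 : P.eval x₀ = ∑ i : Fin (P.natDegree + 1), (P.coeff i * x₀ ^ (i : ℕ)) := by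
      rw [Polynomial.eval_eq_sum_range, Finset.sum_range]
    rw [← e2, hP0, mul_zero]
  obtain ⟨F, hF, -, hF0⟩ := hst k b₀ b hb₀ hb hM P.natDegree p q hp hq hq0 y hyu hne hsum
  rw [← hpq] at hF0
  refine ⟨F.map (Int.castRingHom ℚ), ?_, ?_⟩
  · rwa [Ne, Polynomial.map_eq_zero_iff (RingHom.injective_int _)]
  · have e : Polynomial.aeval x₀ (F.map (algebraMap ℤ ℚ)) = Polynomial.aeval x₀ F :=
      Polynomial.aeval_map_algebraMap ℚ x₀ F
    rw [← hF0, ← e]
    rfl

theorem ai_step (hst : S_STEP) {k : ℕ} {b₀ : ℕ} {b : Fin k → ℕ} (hb₀ : 2 ≤ b₀) (hb : ∀ l, 2 ≤ b l)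
    (hM : MInd b₀ b) {x₀ : ℝ} (hx₀ : ∃ p q : ℝ, UL b₀ p ∧ UL b₀ q ∧ q ≠ 0 ∧ x₀ = p / q)
    {x : Fin k → ℝ} (hx : ∀ l, ∃ p q : ℝ, UL (b l) p ∧ UL (b l) q ∧ q ≠ 0 ∧ x l = p / q)
    (h : IsAlgebraic (Algebra.adjoin ℚ (Set.range x)) x₀) : IsAlgebraic ℚ x₀ := by
  obtain ⟨P, hP, hP0⟩ := h
  refine ai_poly hst hb₀ hb hM hx₀ (P.map (algebraMap (Algebra.adjoin ℚ (Set.range x)) ℝ)) ?_
    (fun i => ?_) ?_
  · rwa [Ne, Polynomial.map_eq_zero_iff (FaithfulSMul.algebraMap_injective _ _)]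
  · rw [Polynomial.coeff_map]
    exact adjoin_frac hx (P.coeff i).2
  · rw [← hP0, Polynomial.aeval_def, Polynomial.eval_map]

/-- elements of the field generated by classes in `ULM b` -/
theorem closure_fracM {k : ℕ} {b : Fin k → ℕ} {S : Set ℝ} (hS : ∀ x ∈ S, ULM b x) {x : ℝ}
    (hx : x ∈ Subfield.closure S) : ∃ p q : ℝ, ULM b p ∧ ULM b q ∧ q ≠ 0 ∧ x = p / q := by
  have hsub : ∀ y ∈ Subring.closure S, ULM b y := by
    intro y hy
    induction hy using Subring.closure_induction with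
    | mem x hx => exact hS x hx
    | zero => simpa using ulm_const (b := b) 0
    | one => simpa using ulm_const (b := b) 1
    | add x y _ _ hx hy => exact ulm_add hx hy
    | neg x _ hx =>
      have := ulm_mul (ulm_const (b := b) (-1)) hx
      simpa using this
    | mul x y _ _ hx hy => exact ulm_mul hx hy
  rw [Subfield.mem_closure_iff] at hx
  obtain ⟨p, hp, q, hq, rfl⟩ := hx
  by_cases h : q = 0
  · refine ⟨0, 1, by simpa using ulm_const (b := b) 0, by simpa using ulm_const (b := b) 1,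
      one_ne_zero, ?_⟩
    rw [h]
    simp
  · exact ⟨p, q, hsub p hp, hsub q hq, h, rfl⟩

/-- an element of the field of `b₀` which is algebraic over the field of the other bases -/
theorem field_alg (hst : S_STEP) {k : ℕ} {b₀ : ℕ} {b : Fin k → ℕ} (hb₀ : 2 ≤ b₀) (hb : ∀ l, 2 ≤ b l)
    (hM : MInd b₀ b) {x₀ : ℝ} (hx₀ : ∃ p q : ℝ, UL b₀ p ∧ UL b₀ q ∧ q ≠ 0 ∧ x₀ = p / q)
    {S : Set ℝ} (hS : ∀ x ∈ S, ULM b x) (h : IsAlgebraic (Subfield.closure S) x₀) :
    IsAlgebraic ℚ x₀ := by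
  obtain ⟨P, hP, hP0⟩ := h
  refine ai_poly hst hb₀ hb hM hx₀ (P.map (algebraMap (Subfield.closure S) ℝ)) ?_
    (fun i => ?_) ?_
  · rwa [Ne, Polynomial.map_eq_zero_iff (FaithfulSMul.algebraMap_injective _ _)]
  · rw [Polynomial.coeff_map]
    exact closure_fracM hS (P.coeff i).2
  · rw [← hP0, Polynomial.aeval_def, Polynomial.eval_map]

theorem ai_main (hst : S_STEP) : ∀ (r : ℕ) (b : Fin r → ℕ), (∀ i, 2 ≤ b i) →
    (∀ k : Fin r → ℤ, ∏ i, (b i : ℚ) ^ k i = 1 → k = 0) → ∀ x : Fin r → ℝ,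
    (∀ i, Transcendental ℚ (x i)) →
    (∀ i, ∃ p q : ℝ, UL (b i) p ∧ UL (b i) q ∧ q ≠ 0 ∧ x i = p / q) → AlgebraicIndependent ℚ x := by
  intro r
  induction r with
  | zero =>
    intro b hb h x hx hfr
    exact algebraicIndependent_empty_type
  | succ r ih =>
    intro b hb h x hx hfr
    have h1 : AlgebraicIndependent ℚ (fun i : Fin r => x i.succ) := by
      refine ih (fun i => b i.succ) (fun i => hb _) (fun k hk => ?_) _ (fun i => hx _)
        (fun i => hfr _)
      have h2 := h (Fin.cons 0 k) (by rw [Fin.prod_univ_succ]; simpa using hk)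
      funext i
      have := congrFun h2 i.succ
      simpa using this
    have h2 : Transcendental (Algebra.adjoin ℚ (Set.range fun i : Fin r => x i.succ)) (x 0) := by
      intro hal
      refine hx 0 (ai_step hst (hb 0) (fun l => hb l.succ) (fun s t hst' => ?_) (hfr 0)
        (fun l => hfr l.succ) hal)
      have h3 := h (Fin.cons s t) (by rw [Fin.prod_univ_succ]; simpa using hst')
      have := congrFun h3 0
      simpa using this
    have h3 := (h1.option_iff_transcendental (x 0)).2 h2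
    have h4 := (algebraicIndependent_equiv (finSuccEquiv r)
      (f := fun o : Option (Fin r) => o.elim (x 0) fun i => x i.succ)).2 h3
    convert h4 using 1
    funext i
    refine Fin.cases ?_ (fun i => ?_) i
    · simp
    · simp

/-- the fields meet in `ℚ` -/
theorem fields (hst : S_STEP) {a b : ℕ} (ha : 2 ≤ a) (hb : 2 ≤ b) (hab : TwoB.Indep a b) {x : ℝ}
    (h1 : ∃ p q : ℝ, UL a p ∧ UL a q ∧ q ≠ 0 ∧ x = p / q)
    (h2 : ∃ p q : ℝ, UL b p ∧ UL b q ∧ q ≠ 0 ∧ x = p / q) : ∃ q : ℚ, x = q := by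
  obtain ⟨p, q, hp, hq, hq0, hpq⟩ := h1
  obtain ⟨s, t, hs, ht, ht0, hst'⟩ := h2
  have hM : MInd a (fun _ : Fin 1 => b) := by
    intro n k hk
    by_contra hn
    rw [Fin.prod_univ_one] at hk
    have ha0 : (0 : ℚ) < a := by exact_mod_cast (by omega : 0 < a)
    have hb0 : (0 : ℚ) < b := by exact_mod_cast (by omega : 0 < b)
    have ha1 : (1 : ℚ) < a := by exact_mod_cast (by omega : 1 < a)
    have hb1 : (1 : ℚ) < b := by exact_mod_cast (by omega : 1 < b)
    -- signs
    rcases lt_trichotomy (k 0) 0 with h0 | h0 | h0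
    · have hn' : 0 < n := by
        by_contra hcon
        have h3 : (a : ℚ) ^ n ≤ 1 := zpow_le_one_of_nonpos₀ ha1.le (by omega)
        have h4 : (b : ℚ) ^ (k 0) < 1 := zpow_lt_one_of_neg₀ hb1 h0
        have h5 : 0 < (b : ℚ) ^ (k 0) := zpow_pos hb0 _
        have h6 : 0 < (a : ℚ) ^ n := zpow_pos ha0 _
        nlinarith
      have e : (a : ℚ) ^ n.toNat = (b : ℚ) ^ (-(k 0)).toNat := by
        rw [← zpow_natCast, ← zpow_natCast, Int.toNat_of_nonneg hn'.le,
          Int.toNat_of_nonneg (by omega), zpow_neg]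
        exact eq_inv_of_mul_eq_one_left hk
      have := hab n.toNat (-(k 0)).toNat (by exact_mod_cast e)
      omega
    · rw [h0, zpow_zero, mul_one] at hk
      rcases lt_trichotomy n 0 with h3 | h3 | h3
      · have := zpow_lt_one_of_neg₀ ha1 h3
        linarith
      · exact hn h3
      · have := one_lt_zpow₀ ha1 h3
        linarith
    · have hn' : n < 0 := by
        by_contra hcon
        have h3 : 1 ≤ (a : ℚ) ^ n := one_le_zpow₀ ha1.le (by omega)
        have h4 : 1 < (b : ℚ) ^ (k 0) := one_lt_zpow₀ hb1 h0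
        nlinarith
      have e : (a : ℚ) ^ (-n).toNat = (b : ℚ) ^ (k 0).toNat := by
        rw [← zpow_natCast, ← zpow_natCast, Int.toNat_of_nonneg (by omega),
          Int.toNat_of_nonneg h0.le, zpow_neg]
        exact (eq_inv_of_mul_eq_one_right hk).symm
      have := hab (-n).toNat (k 0).toNat (by exact_mod_cast e)
      omega
  obtain ⟨F, hF, hd, hF0⟩ := hst 1 a (fun _ => b) ha (fun _ => hb) hM 1 p q hp hq hq0
    ![-s, t] (by
      intro i
      fin_cases i
      · have := ulm_mul (b := fun _ : Fin 1 => b) (ulm_const (-1)) (ulm_of_ul (l := 0) hs)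
        simpa using this
      · exact ulm_of_ul (b := fun _ : Fin 1 => b) (l := 0) ht) ⟨1, by simpa using ht0⟩ (by
      rw [Fin.sum_univ_two]
      simp only [Fin.val_zero, pow_zero, Matrix.cons_val_zero, Fin.val_one, pow_one,
        Matrix.cons_val_one]
      rw [← hpq, hst']
      field_simp
      ring)
  rw [← hpq] at hF0
  rw [Polynomial.eq_X_add_C_of_natDegree_le_one hd] at hF0 hF
  simp only [map_add, map_mul, Polynomial.aeval_C, Polynomial.aeval_X] at hF0
  have hc1 : F.coeff 1 ≠ 0 := by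
    intro h0
    rw [h0] at hF0 hF
    simp only [map_zero, zero_mul, zero_add] at hF0 hF
    have : F.coeff 0 = 0 := by
      have h5 : ((F.coeff 0 : ℤ) : ℝ) = 0 := by simpa using hF0
      exact_mod_cast h5
    rw [this] at hF
    simp at hF
  refine ⟨-(F.coeff 0 : ℚ) / (F.coeff 1 : ℚ), ?_⟩
  have hc1' : ((F.coeff 1 : ℤ) : ℝ) ≠ 0 := by exact_mod_cast hc1
  have hF0' : ((F.coeff 1 : ℤ) : ℝ) * x + ((F.coeff 0 : ℤ) : ℝ) = 0 := by simpa using hF0
  push_cast
  rw [eq_div_iff hc1']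
  linarith

/-- irrational elements of the algebra are transcendental -/
theorem irr_trans (h1 : S_FRD) (h2 : S_LU) (hmain : S_MAINL) {b : ℕ} (hb : 2 ≤ b) {x : ℝ}
    (hx : x ∈ Algebra.adjoin ℚ (Cls b)) (hirr : Irrational x) : Transcendental ℚ x := by
  intro hal
  obtain ⟨q, hq⟩ := part2 h1 h2 hmain 1 (fun _ => b) (fun _ => hb)
    (fun i j hij => absurd (Subsingleton.elim i j) hij) (fun _ => x) (fun _ => 1) (fun _ => hx)
    (fun _ => ⟨isAlgebraic_one, one_ne_zero⟩) (by simpa using hal) 0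
  exact hirr ⟨q, hq.symm⟩

/-- elements of the algebra are in the field -/
theorem adj_field {S : Set ℝ} {x : ℝ} (hx : x ∈ Algebra.adjoin ℚ S) : x ∈ Subfield.closure S := by
  induction hx using Algebra.adjoin_induction with
  | mem x hx => exact Subfield.subset_closure hx
  | algebraMap q => exact SubfieldClass.ratCast_mem _ q
  | add x y _ _ hx hy => exact add_mem hx hy
  | mul x y _ _ hx hy => exact mul_mem hx hy

end Pool.Agent.L0h79.AJ
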