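import Mathlib
import Pool.Agent.L0h79.AJ.Ulm

set_option autoImplicit false
set_option linter.all false

/-!
# AJ: STEP
-/

namespace Pool.Agent.L0h79.AJ

open Filter Topology Pool.Agent.TH932.Abs Pool.Agent.TH932.Germs Pool.Agent.TH932.Chi
open Pool.Agent.TH932.Words Pool.Agent.TH796.AL Pool.Agent.L0h79.FR

/-- the polynomial with given coefficients -/
noncomputable def pol {d : ℕ} (τ : Fin (d + 1) → ℤ) : Polynomial ℤ :=
  ∑ i : Fin (d + 1), Polynomial.monomial (i : ℕ) (τ i)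

theorem pol_coeff {d : ℕ} (τ : Fin (d + 1) → ℤ) (i : Fin (d + 1)) : (pol τ).coeff i = τ i := by
  rw [pol, Polynomial.finset_sum_coeff, Finset.sum_eq_single i]
  · rw [Polynomial.coeff_monomial, if_pos rfl]
  · intro j _ hj
    rw [Polynomial.coeff_monomial, if_neg]
    intro h
    exact hj (Fin.ext h)
  · intro h
    exact absurd (Finset.mem_univ _) h

theorem pol_coeff_big {d : ℕ} (τ : Fin (d + 1) → ℤ) {j : ℕ} (hj : d < j) : (pol τ).coeff j = 0 := by
  rw [pol, Polynomial.finset_sum_coeff]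
  refine Finset.sum_eq_zero fun i _ => ?_
  rw [Polynomial.coeff_monomial, if_neg]
  have := i.2
  omega

theorem pol_degree {d : ℕ} (τ : Fin (d + 1) → ℤ) : (pol τ).natDegree ≤ d := by
  rw [Polynomial.natDegree_le_iff_coeff_eq_zero]
  intro j hj
  exact pol_coeff_big τ hj

theorem pol_ne {d : ℕ} {τ : Fin (d + 1) → ℤ} (h : τ ≠ 0) : pol τ ≠ 0 := by
  intro h0
  apply h
  funext i
  rw [← pol_coeff τ i, h0]
  simp

theorem pol_eval {d : ℕ} (τ : Fin (d + 1) → ℤ) (z : ℝ) :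
    Polynomial.aeval z (pol τ) = ∑ i : Fin (d + 1), (τ i : ℝ) * z ^ (i : ℕ) := by
  rw [pol, map_sum]
  refine Finset.sum_congr rfl fun i _ => ?_
  rw [Polynomial.aeval_monomial]
  simp

/-- **STEP** -/
theorem step (h1 : S_BIL) (h2 : S_PGLUE) (h3 : S_DISJ) : S_STEP := by
  classical
  intro k b₀ b hb₀ hb hM d p q hp hq hq0 y hy hy0 hsum
  obtain ⟨m, B, e, hbe⟩ := base (k + 1) (Fin.cons b₀ b) (by
    intro i
    refine Fin.cases ?_ (fun l => ?_) i
    · simpa using hb₀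
    · simpa using hb l)
  have he0 : b₀ = ∏ i, B.P i ^ e 0 i := by simpa using hbe 0
  have hel : ∀ l : Fin k, b l = ∏ i, B.P i ^ e l.succ i := fun l => by simpa using hbe l.succ
  set V : Submodule ℝ (Fin m → ℝ) := Submodule.span ℝ {fun i => (e 0 i : ℝ)} with hV
  set W : Submodule ℝ (Fin m → ℝ) :=
    Submodule.span ℝ (Set.range fun l : Fin k => fun i => (e l.succ i : ℝ)) with hW
  have hdisj : Disjoint V W := h3 k m B b₀ b (e 0) (fun l => e l.succ) he0 hel hM
  set x : Fin (d + 1) → ℝ := fun i => p ^ (i : ℕ) * q ^ (d - (i : ℕ)) with hx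
  have hxu : ∀ i, UL b₀ (x i) := fun i => ul_mul (ul_pow hp _) (ul_pow hq _)
  have hxq : ∀ i : Fin (d + 1), x i = q ^ d * (p / q) ^ (i : ℕ) := by
    intro i
    have hi : (i : ℕ) ≤ d := Nat.lt_succ_iff.1 i.2
    rw [hx]
    simp only []
    rw [div_pow, mul_div_assoc', eq_div_iff (pow_ne_zero _ hq0), mul_assoc, ← pow_add,
      Nat.sub_add_cancel hi]
    ring
  have hxy : ∑ i, x i * y i = 0 := by
    have : ∀ i, x i * y i = q ^ d * ((p / q) ^ (i : ℕ) * y i) := fun i => by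
      rw [hxq i]; ring
    simp only [this]
    rw [← Finset.mul_sum, hsum, mul_zero]
  choose C A dd hC0 hA0 hD using fun i => hxu i m B (e 0) he0
  choose C' A' dd' hC0' hA0' hD' using fun i => hy i m B (fun l => e l.succ) hel
  obtain ⟨κ, hκ, hbil⟩ := h1 m B V W hdisj (d + 1)
  obtain ⟨K, hK, hgl⟩ := h2 d
  set CC : ℝ := ∑ i, C i + ∑ i, C' i with hCC
  have hS0 : 0 ≤ ∑ i, C i := Finset.sum_nonneg fun i _ => hC0 i
  have hS0' : 0 ≤ ∑ i, C' i := Finset.sum_nonneg fun i _ => hC0' i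
  have hCi : ∀ i, C i ≤ CC := fun i => by
    have := Finset.single_le_sum (f := C) (fun j _ => hC0 j) (Finset.mem_univ i)
    linarith
  have hCi' : ∀ i, C' i ≤ CC := fun i => by
    have := Finset.single_le_sum (f := C') (fun j _ => hC0' j) (Finset.mem_univ i)
    linarith
  have hCC0 : 0 ≤ CC := by linarith
  set AA : ℝ := ∑ i, A i + ∑ i, A' i with hAA
  have hSA : 0 ≤ ∑ i, A i := Finset.sum_nonneg fun i _ => hA0 i
  have hSA' : 0 ≤ ∑ i, A' i := Finset.sum_nonneg fun i _ => hA0' i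
  have hAA0 : 0 ≤ AA := by linarith
  set DD : ℕ := ∑ i, dd i + ∑ i, dd' i with hDD
  have hdi : ∀ i, dd i ≤ DD := fun i => by
    have := Finset.single_le_sum (f := dd) (fun j _ => Nat.zero_le _) (Finset.mem_univ i)
    omega
  have hdi' : ∀ i, dd' i ≤ DD := fun i => by
    have := Finset.single_le_sum (f := dd') (fun j _ => Nat.zero_le _) (Finset.mem_univ i)
    omega
  -- choose the precision
  obtain ⟨E, hE⟩ := polylog ((2 * K + 3) * (κ * (CC + 1) * (AA + 1) ^ 5)) (DD * 5) (2 * K + 2)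
  have hE := hE E le_rfl
  choose r hr hdat using fun i => hD i E
  choose r' hr' hdat' using fun i => hD' i E
  set rr : ℕ := ∑ i, r i + ∑ i, r' i with hrr
  have hri : ∀ i, r i ≤ rr := fun i => by
    have := Finset.single_le_sum (f := r) (fun j _ => Nat.zero_le _) (Finset.mem_univ i)
    omega
  have hri' : ∀ i, r' i ≤ rr := fun i => by
    have := Finset.single_le_sum (f := r') (fun j _ => Nat.zero_le _) (Finset.mem_univ i)
    omega
  have hX := one_le_log E
  set X := 1 + Real.log ((E : ℝ) + 1) with hXdef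
  have hrr2 : (rr : ℝ) ≤ AA * X ^ DD := by
    rw [hrr]
    push_cast
    rw [hAA, add_mul, Finset.sum_mul, Finset.sum_mul]
    refine add_le_add (Finset.sum_le_sum fun i _ => (hr i).trans ?_)
      (Finset.sum_le_sum fun i _ => (hr' i).trans ?_)
    · have := hA0 i
      gcongr
      exact hdi i
    · have := hA0' i
      gcongr
      exact hdi' i
  have hrr3 : (rr : ℝ) + 1 ≤ (AA + 1) * X ^ DD := by
    have : 1 ≤ X ^ DD := one_le_pow₀ hX
    nlinarith
  set H : ℝ := κ * (CC + 1) * ((rr : ℝ) + 1) ^ 5 with hH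
  have hH0 : 0 ≤ H := by positivity
  have hHE : (2 * K + 3) * H + (2 * K + 2) ≤ E := by
    refine le_trans ?_ hE
    have : ((rr : ℝ) + 1) ^ 5 ≤ (AA + 1) ^ 5 * X ^ (DD * 5) := by
      rw [pow_mul, ← mul_pow]
      gcongr
    rw [hH]
    calc (2 * K + 3) * (κ * (CC + 1) * ((rr : ℝ) + 1) ^ 5) + (2 * K + 2)
        ≤ (2 * K + 3) * (κ * (CC + 1) * ((AA + 1) ^ 5 * X ^ (DD * 5))) + (2 * K + 2) := by gcongr
      _ = _ := by ring
  have hHle : κ * (CC + 1) * ((rr : ℝ) + 1) ^ 5 ≤ E := by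
    rw [← hH]
    have e1 : 0 ≤ K * H := mul_nonneg hK hH0
    have e2 : (2 * K + 3) * H = 2 * (K * H) + 3 * H := by ring
    rw [e2] at hHE
    linarith
  refine hgl (p / q) H hH0 fun N hN hT => ?_
  have hL : Tendsto (fun n => (N n : ℝ)) atTop atTop := tendsto_natCast_atTop_atTop.comp hT
  obtain ⟨τ, hτ⟩ := hbil CC hCC0 rr (fun n => (N n : ℝ)) hL x y E
    (fun i => dat_mono hL (hCi i) (hri i) (hdat i N hN hL))
    (fun i => dat_mono hL (hCi' i) (hri' i) (hdat' i N hN hL)) hxy hy0 hHle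
  refine ⟨fun n => pol (τ n), ?_⟩
  have hev : ∀ᶠ n in (UU : Filter ℕ), Real.log (1 + (|q| ^ d)⁻¹) ≤ (N n : ℝ) :=
    ev_of_atTop (hL.eventually_ge_atTop _)
  filter_upwards [hτ, hev] with n hn hn2
  obtain ⟨g1, g2, g3⟩ := hn
  have hNn : (0 : ℝ) ≤ N n := Nat.cast_nonneg _
  refine ⟨pol_ne g1, pol_degree _, fun i => ?_, ?_⟩
  · by_cases hi : i < d + 1
    · have := pol_coeff (τ n) ⟨i, hi⟩
      simp only [] at this
      rw [this]
      exact g2 ⟨i, hi⟩
    · rw [pol_coeff_big (τ n) (by omega)]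
      simp only [Int.cast_zero, abs_zero]
      positivity
  · rw [pol_eval]
    have hqd : 0 < |q| ^ d := pow_pos (abs_pos.2 hq0) d
    have e1 : ∑ i, (τ n i : ℝ) * x i = q ^ d * ∑ i : Fin (d + 1), (τ n i : ℝ) * (p / q) ^ (i : ℕ) := by
      rw [Finset.mul_sum]
      refine Finset.sum_congr rfl fun i _ => ?_
      rw [hxq i]
      ring
    rw [e1, abs_mul, abs_pow] at g3
    have g4 : |∑ i : Fin (d + 1), (τ n i : ℝ) * (p / q) ^ (i : ℕ)| ≤
        (|q| ^ d)⁻¹ * Real.exp (-((E / 2 - H) * N n)) := by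
      rw [inv_mul_eq_div, le_div_iff₀ hqd, mul_comm]
      exact g3
    have g5 : (|q| ^ d)⁻¹ ≤ Real.exp (N n) := by
      have h5 : 0 < 1 + (|q| ^ d)⁻¹ := by positivity
      calc (|q| ^ d)⁻¹ ≤ 1 + (|q| ^ d)⁻¹ := by linarith
        _ = Real.exp (Real.log (1 + (|q| ^ d)⁻¹)) := (Real.exp_log h5).symm
        _ ≤ _ := Real.exp_le_exp.2 hn2
    calc |∑ i : Fin (d + 1), (τ n i : ℝ) * (p / q) ^ (i : ℕ)|
        ≤ (|q| ^ d)⁻¹ * Real.exp (-((E / 2 - H) * N n)) := g4
      _ ≤ Real.exp (N n) * Real.exp (-((E / 2 - H) * N n)) :=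
        mul_le_mul_of_nonneg_right g5 (Real.exp_pos _).le
      _ = Real.exp (-((E / 2 - H - 1) * N n)) := by rw [← Real.exp_add]; ring_nf
      _ ≤ Real.exp (-(K * (H + 1) * N n)) := by
        apply Real.exp_le_exp.2
        have h6 : K * (H + 1) ≤ E / 2 - H - 1 := by
          have e2 : (2 * K + 3) * H = 2 * (K * H) + 3 * H := by ring
          have e3 : K * (H + 1) = K * H + K := by ring
          rw [e3]
          rw [e2] at hHE
          linarith
        have h7 := mul_le_mul_of_nonneg_right h6 hNn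
        linarith

end Pool.Agent.L0h79.AJ
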