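import Mathlib
import Pool.Agent.L0h79.AJ.Fin
import Pool.Agent.L0h79.AJ.Step
import Pool.Agent.L0h79.FR.All2
import Pool.Agent.L0h10.AJ.PCOP
import Pool.Agent.L0h10.AJ.PFAC
import Pool.Agent.L0h10.AJ.PGLUE
import Pool.Agent.L0h44.AJ.BIL
import Pool.Agent.L0h44.AJ.CRAM
import Pool.Agent.L0h78.AJ.Disj
import Pool.Agent.L0h78.AJ.Proj
import Pool.Agent.L0h90.AJ.BSys
import Pool.Agent.L0h90.AJ.GBil

set_option autoImplicit false
set_option linter.all false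

/-!
# AJ: assembly
-/

namespace Pool.Agent.L0h79.AJ

open Pool.Agent.L0h79.FR

theorem bsys_thm : S_BSYS := Pool.Agent.L0h90.AJ.bsys Pool.Agent.L0h44.AJ.cram Pool.Agent.L0h78.AJ.proj
theorem gbil_thm : S_GBIL := Pool.Agent.L0h90.AJ.gbil kpq ind_thm evd_thm bsys_thm
theorem bil_thm : S_BIL := Pool.Agent.L0h44.AJ.bil gbil_thm
theorem pglue_thm : S_PGLUE :=
  Pool.Agent.L0h10.AJ.pglue Pool.Agent.L0h10.AJ.pcop Pool.Agent.L0h10.AJ.pfac
theorem step_thm : S_STEP := step bil_thm pglue_thm Pool.Agent.L0h78.AJ.disj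

end Pool.Agent.L0h79.AJ
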